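import Mathlib
import Pool.Agent.N343.AS.Stm

/-!
Project AS (helper343), part SHI (helper946): choice of the shift.
-/

set_option autoImplicit false

open Filter Topology MeasureTheory Finset

namespace Pool.Agent.N946.AS.SHI

open Pool.Agent.N343.AS

theorem Q_ge (i : ℕ) : i + 4 ≤ Q i := by
  induction i with
  | zero => exact le_rfl
  | succ i ih =>
    change i + 1 + 4 ≤ Q i + (i + 5)
    omega

theorem main : S_SHI := by
  intro N i a ha0 ha1
  have hZ : 0 < Z N := by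
    unfold Z
    positivity
  obtain ⟨m, hm⟩ : ∃ m : ℤ, (2 : ℤ) ^ (Q i) = 2 ^ (i + 4) * m :=
    ⟨2 ^ (Q i - (i + 4)), by rw [← pow_add, Nat.add_sub_cancel' (Q_ge i)]⟩
  obtain ⟨c, hc⟩ : ∃ c : ℤ, c = 2 ^ (i + 1) := ⟨_, rfl⟩
  have hc2 : 2 ≤ c := by
    rw [hc, pow_succ]
    have : (1 : ℤ) ≤ 2 ^ i := one_le_pow₀ (by norm_num)
    linarith
  have hb : (2 : ℤ) ^ (i + 4) = 8 * c := by
    rw [hc]
    ring
  obtain ⟨P, hP⟩ : ∃ P : ℝ, P = 2 ^ (Q i) := ⟨_, rfl⟩
  have hP0 : 0 < P := by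
    rw [hP]
    positivity
  have hPm : P = ((8 * c * m : ℤ) : ℝ) := by
    rw [hP, ← hb, ← hm]
    push_cast
    rfl
  obtain ⟨y, hy⟩ : ∃ y : ℝ, y = a * P / Z N := ⟨_, rfl⟩
  have hy0 : 0 ≤ y := by
    rw [hy]
    positivity
  have hy1 : y < P := by
    rw [hy, div_lt_iff₀ hZ]
    nlinarith
  obtain ⟨f, hf⟩ : ∃ f : ℤ, f = ⌊y⌋ := ⟨_, rfl⟩
  have hf0 : 0 ≤ f := by
    rw [hf]
    exact Int.floor_nonneg.2 hy0
  have hfy : (f : ℝ) ≤ y := by
    rw [hf]
    exact Int.floor_le y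
  have hfy' : y < f + 1 := by
    rw [hf]
    exact Int.lt_floor_add_one y
  have hfP : f < 8 * c * m := by
    have h1 : (f : ℝ) < ((8 * c * m : ℤ) : ℝ) := by
      rw [← hPm]
      linarith
    exact_mod_cast h1
  have hsh : ∀ σ : ℤ, (a + σ * sh i * Z N) * 2 ^ (Q i) / Z N = y + ((2 * c * σ : ℤ) : ℝ) := by
    intro σ
    have h2 : (2 : ℝ) ^ (i + 2) = 2 * (c : ℝ) := by
      rw [hc]
      push_cast
      ring
    unfold sh
    rw [h2, hy, ← hP]
    push_cast
    field_simp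
  have key : ∀ σ : ℤ, 0 ≤ f + 2 * c * σ → f + 2 * c * σ < 8 * c * m →
      c + 1 ≤ (f + 2 * c * σ) % (8 * c) → (f + 2 * c * σ) % (8 * c) ≤ 8 * c - 2 - c →
      Good N i (a + σ * sh i * Z N) := by
    intro σ h1 h2 h3 h4
    have e := hsh σ
    have e1 : ⌊(a + σ * sh i * Z N) * 2 ^ (Q i) / Z N⌋ = f + 2 * c * σ := by
      rw [e, Int.floor_add_intCast, hf]
    have h5 : (0 : ℝ) ≤ y + ((2 * c * σ : ℤ) : ℝ) := by
      have : (0 : ℝ) ≤ ((f + 2 * c * σ : ℤ) : ℝ) := by exact_mod_cast h1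
      push_cast at this ⊢
      linarith
    have h6 : y + ((2 * c * σ : ℤ) : ℝ) < P := by
      have : ((f + 2 * c * σ + 1 : ℤ) : ℝ) ≤ ((8 * c * m : ℤ) : ℝ) := by exact_mod_cast h2
      rw [hPm]
      push_cast at this ⊢
      linarith
    rw [← e, ← hP] at h5 h6
    refine ⟨?_, ?_, ?_, ?_⟩
    · by_contra hneg
      push Not at hneg
      have : (a + σ * sh i * Z N) * P / Z N < 0 :=
        div_neg_of_neg_of_pos (mul_neg_of_neg_of_pos hneg hP0) hZ
      linarith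
    · rw [div_lt_iff₀ hZ, mul_comm] at h6
      exact lt_of_mul_lt_mul_left h6 hP0.le
    · rw [e1, hb, ← hc]
      exact h3
    · rw [e1, hb, ← hc]
      exact h4
  have hdm := Int.emod_add_mul_ediv f (8 * c)
  have hd0 := Int.emod_nonneg f (show (8 * c) ≠ 0 by omega)
  have hd1 := Int.emod_lt_of_pos f (show 0 < 8 * c by omega)
  obtain ⟨d, hd⟩ : ∃ d : ℤ, d = f % (8 * c) := ⟨_, rfl⟩
  obtain ⟨q, hq⟩ : ∃ q : ℤ, q = f / (8 * c) := ⟨_, rfl⟩
  rw [← hd, ← hq] at hdm
  rw [← hd] at hd0 hd1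
  have hq0 : 0 ≤ q := by
    rw [hq]
    exact Int.ediv_nonneg hf0 (by omega)
  have hqm : q < m := by
    rw [hq]
    exact Int.ediv_lt_of_lt_mul (by omega) (by linarith)
  have hqm' : 8 * c * q + 8 * c ≤ 8 * c * m := by nlinarith
  have hq0' : 0 ≤ 8 * c * q := by positivity
  have hmod : ∀ x : ℤ, 0 ≤ d + x → d + x < 8 * c → (f + x) % (8 * c) = d + x := by
    intro x h1 h2
    have : f + x = d + x + 8 * c * q := by linarith
    rw [this, Int.add_mul_emod_self_left, Int.emod_eq_of_lt h1 h2]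
  by_cases h1 : d ≤ c
  · refine ⟨1, by norm_num, key 1 (by linarith) (by linarith) ?_ ?_⟩
    · rw [hmod (2 * c * 1) (by linarith) (by linarith)]
      linarith
    · rw [hmod (2 * c * 1) (by linarith) (by linarith)]
      linarith
  · push Not at h1
    by_cases h2 : d ≤ 8 * c - 2 - c
    · refine ⟨0, by norm_num, key 0 (by linarith) (by linarith) ?_ ?_⟩
      · rw [hmod (2 * c * 0) (by linarith) (by linarith)]
        linarith
      · rw [hmod (2 * c * 0) (by linarith) (by linarith)]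
        linarith
    · push Not at h2
      refine ⟨-1, by norm_num, key (-1) (by linarith) (by linarith) ?_ ?_⟩
      · rw [hmod (2 * c * -1) (by linarith) (by linarith)]
        linarith
      · rw [hmod (2 * c * -1) (by linarith) (by linarith)]
        linarith

end Pool.Agent.N946.AS.SHI
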